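import Pool.Agent.X45.LSS.Step

/-!
# Persistence of complete intersections for hypergraph Lovász–Saks–Schrijver ideals

Let `E` be the edge set of a hypergraph on `n` vertices that is a clutter. We prove that if the
Lovász–Saks–Schrijver ideal `L_E(d)` is a complete intersection, then so is `L_E(d + 1)`, over every
field. This answers the first question (Q1) in the affirmative.

Outline. In the local ring of the origin, every minimal system of generators of an ideal generated
by a regular sequence is a regular sequence (exchange). The polynomials `f_A^{(d)}` are such a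
minimal system, because the edges form a clutter, and they are homogeneous, so they form a regular
sequence of the polynomial ring. Hence the new variables `y_{1,d+1}, …, y_{n,d+1}` followed by the
polynomials `f_A^{(d+1)}` form a regular sequence: modulo the new variables the latter become
`f_A^{(d)}`. All these polynomials are homogeneous of positive degree, so they may be permuted, and
the `f_A^{(d+1)}` form a regular sequence.
-/

set_option autoImplicit false

namespace Pool.Agent.Results.MP_3122b6_ag.CompleteIntersection

open MvPolynomial

/-- The polynomial `f_A^{(d)}`, the sum over the columns `j` of the products of the variables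
`y_{i,j}` for `i ∈ A`. -/
noncomputable def edgePoly (k : Type*) [Field k] {n : ℕ} (d : ℕ) (A : Finset (Fin n)) :
    MvPolynomial (Fin n × Fin d) k :=
  ∑ j : Fin d, ∏ i ∈ A, X (i, j)

/-- The Lovász–Saks–Schrijver ideal of the hypergraph with edge set `E`. -/
noncomputable def lssIdeal (k : Type*) [Field k] {n : ℕ} (E : Finset (Finset (Fin n))) (d : ℕ) :
    Ideal (MvPolynomial (Fin n × Fin d) k) :=
  Ideal.span (edgePoly k d '' (E : Set (Finset (Fin n))))

/-- The edges are nonempty and no edge is contained in another one. -/
def IsClutter {n : ℕ} (E : Finset (Finset (Fin n))) : Prop :=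
  (∀ A ∈ E, A.Nonempty) ∧ ∀ A ∈ E, ∀ B ∈ E, A ⊆ B → A = B

/-- The ideal is generated by a regular sequence of the ring. -/
def IsCompleteIntersection {R : Type*} [CommRing R] (I : Ideal R) : Prop :=
  ∃ rs : List R, RingTheory.Sequence.IsRegular R rs ∧ Ideal.ofList rs = I

/-- If the edge set `E` is a clutter, `d ≥ 1` and `L_E(d)` is a complete intersection, then
`L_E(d + 1)` is a complete intersection. -/
theorem result (k : Type*) [Field k] {n : ℕ} (E : Finset (Finset (Fin n))) (hE : IsClutter E)
    (d : ℕ) (hd : 1 ≤ d) (h : IsCompleteIntersection (lssIdeal k E d)) :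
    IsCompleteIntersection (lssIdeal k E (d + 1)) := by
  obtain ⟨g, hg, hgI⟩ := h
  have h1 := Pool.Agent.X45.LSS.gens_regular (k := k) hd E hE.1 hE.2 g hg.toIsWeaklyRegular hgI
  have hne : ∀ A ∈ E.toList, A.Nonempty := fun A hA => hE.1 A (Finset.mem_toList.1 hA)
  have h2 := Pool.Agent.X45.LSS.step (k := k) E.toList hne h1
  refine ⟨E.toList.map (edgePoly k (d + 1)), ⟨h2, ?_⟩, ?_⟩
  · rw [smul_eq_mul, Ideal.mul_top]
    intro h3
    have h4 : Ideal.ofList (E.toList.map (edgePoly k (d + 1))) ≤
        Pool.Agent.X45.LSS.orig (Fin n × Fin (d + 1)) k := by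
      refine Pool.Agent.X45.LSS.ofList_le fun x hx => ?_
      obtain ⟨A, hA, rfl⟩ := List.mem_map.1 hx
      exact Pool.Agent.X45.LSS.edgeP_orig (hne A hA)
    rw [← h3] at h4
    have h5 := h4 (Submodule.mem_top (x := (1 : MvPolynomial (Fin n × Fin (d + 1)) k)))
    rw [Pool.Agent.X45.LSS.mem_orig] at h5
    simp at h5
  · exact (Pool.Agent.X45.LSS.lssI_eq (k := k) (d + 1) E).symm

end Pool.Agent.Results.MP_3122b6_ag.CompleteIntersection
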